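import Pool.Agent.X193.REC.Defs

/-!
Two properties of the closure of an oligomorphic group in the monoid of all self-maps:
countable families are directed, and every element has a colimit.
-/

namespace Pool.Agent.X193.REC

open Filter

/-- In the closure of an oligomorphic group, countably many elements have a common left
multiple. -/
theorem directed {α : Type} [Countable α] {G : Subgroup (Equiv.Perm α)} (hG : Oligomorphic G)
    (f : ℕ → α → α) (hf : ∀ i, InCl G (f i)) :
    ∃ (h : ℕ → α → α) (g : α → α), (∀ i, InCl G (h i)) ∧ InCl G g ∧ ∀ i, h i ∘ f i = g := by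
  classical
  choose σ hσG hσ using hf
  let U : Ultrafilter (Finset α) := Ultrafilter.of Filter.atTop
  have hU : ∀ x : α, ∀ᶠ s in (U : Filter (Finset α)), x ∈ s := by
    intro x
    have h1 : ∀ᶠ s in (Filter.atTop : Filter (Finset α)), x ∈ s := by
      filter_upwards [Filter.eventually_ge_atTop ({x} : Finset α)] with s hs
      exact hs (Finset.mem_singleton_self x)
    exact (Ultrafilter.of_le _) h1
  let t : Finset α → (ℕ × α) ⊕ α → α := fun s j =>
    match j with
    | Sum.inl (i, y) => (σ i s)⁻¹ y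
    | Sum.inr y => y
  obtain ⟨T, hT⟩ := limit hG U t
  refine ⟨fun i y => T (Sum.inl (i, y)), fun y => T (Sum.inr y), ?_, ?_, ?_⟩
  · intro i s
    obtain ⟨s0, τ, hτ, h⟩ := (hT (s.image fun y => Sum.inl (i, y))).exists
    refine ⟨τ * (σ i s0)⁻¹, G.mul_mem hτ (G.inv_mem (hσG i s0)), fun y hy => ?_⟩
    have h1 := h (Sum.inl (i, y)) (Finset.mem_image_of_mem _ hy)
    exact h1.symm
  · intro s
    obtain ⟨s0, τ, hτ, h⟩ := (hT (s.image fun y => Sum.inr y)).exists
    exact ⟨τ, hτ, fun y hy => (h (Sum.inr y) (Finset.mem_image_of_mem _ hy)).symm⟩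
  · intro i
    funext x
    obtain ⟨s0, ⟨τ, hτ, h⟩, hx⟩ :=
      ((hT {Sum.inl (i, f i x), Sum.inr x}).and (hU x)).exists
    have h1 := h (Sum.inl (i, f i x)) (by simp)
    have h2 := h (Sum.inr x) (by simp)
    have h3 : (σ i s0)⁻¹ (f i x) = x := by
      rw [← hσ i s0 x hx]
      exact (σ i s0).symm_apply_apply x
    have h4 : t s0 (Sum.inl (i, f i x)) = x := h3
    have h5 : t s0 (Sum.inr x) = x := rfl
    change T (Sum.inl (i, f i x)) = T (Sum.inr x)
    rw [h1, h2, h4, h5]

/-- An increasing sequence of finite sets which exhausts a countable type. -/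
theorem exhaust (α : Type) [Countable α] :
    ∃ E : ℕ → Finset α, Monotone E ∧ ∀ x, ∃ m, x ∈ E m := by
  classical
  obtain ⟨ι, hι⟩ := exists_injective_nat α
  have hfin : ∀ m : ℕ, {x : α | ι x ≤ m}.Finite := fun m =>
    Set.Finite.of_finite_image ((Set.finite_Iic m).subset (by
      rintro _ ⟨x, hx, rfl⟩
      exact hx)) (hι.injOn)
  refine ⟨fun m => (hfin m).toFinset, ?_, fun x => ⟨ι x, ?_⟩⟩
  · intro m n hmn x hx
    rw [Set.Finite.mem_toFinset] at hx ⊢
    exact le_trans hx hmn
  · rw [Set.Finite.mem_toFinset]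
    exact le_refl (ι x)

/-- The colimit of the chain `α → α → α → ⋯` given by one element `g` of the closure: maps `c n`
with `c (n + 1) ∘ g = c n` which are jointly surjective. -/
theorem chain {α : Type} [Countable α] {G : Subgroup (Equiv.Perm α)}
    (g : α → α) (hg : InCl G g) :
    ∃ c : ℕ → α → α, (∀ n, InCl G (c n)) ∧ (∀ n, c (n + 1) ∘ g = c n) ∧
      ∀ y, ∃ n x, c n x = y := by
  classical
  obtain ⟨E, hE, hEx⟩ := exhaust α
  choose ρ hρG hρ using hg
  -- finite set of all `g ^ j x`, `j ≤ m`, `x ∈ E m`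
  let B : ℕ → Finset α := fun m => (Finset.range (m + 1)).biUnion fun j => (E m).image (g^[j])
  have hB : ∀ m j x, j ≤ m → x ∈ E m → g^[j] x ∈ B m := by
    intro m j x hj hx
    exact Finset.mem_biUnion.2 ⟨j, Finset.mem_range.2 (Nat.lt_succ_of_le hj),
      Finset.mem_image_of_mem _ hx⟩
  let nxt : ℕ → (Equiv.Perm α × Finset α) → (Equiv.Perm α × Finset α) := fun m p =>
    (p.1 * (ρ p.2)⁻¹, p.2.image g ∪ B (m + 1) ∪ (E (m + 1)).image ((p.1 * (ρ p.2)⁻¹)⁻¹ : Equiv.Perm α))
  let st : ℕ → (Equiv.Perm α × Finset α) := fun n =>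
    Nat.rec ((1 : Equiv.Perm α), B 0 ∪ E 0) nxt n
  have hst : ∀ n, st (n + 1) = nxt n (st n) := fun n => rfl
  have hst0 : st 0 = ((1 : Equiv.Perm α), B 0 ∪ E 0) := rfl
  let σ : ℕ → Equiv.Perm α := fun n => (st n).1
  let s : ℕ → Finset α := fun n => (st n).2
  have hσs : ∀ n, σ (n + 1) = σ n * (ρ (s n))⁻¹ := fun n => rfl
  have hss : ∀ n, s (n + 1) = (s n).image g ∪ B (n + 1) ∪ (E (n + 1)).image ((σ (n + 1))⁻¹ : Equiv.Perm α) :=
    fun n => rfl
  have hσG : ∀ n, σ n ∈ G := by
    intro n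
    induction n with
    | zero => exact G.one_mem
    | succ n ih => rw [hσs]; exact G.mul_mem ih (G.inv_mem (hρG _))
  have hstep : ∀ n x, x ∈ s n → σ (n + 1) (g x) = σ n x := by
    intro n x hx
    rw [hσs, Equiv.Perm.mul_apply, ← hρ (s n) x hx]
    exact congrArg (σ n) ((ρ (s n)).symm_apply_apply x)
  have hsg : ∀ n x, x ∈ s n → g x ∈ s (n + 1) := by
    intro n x hx
    rw [hss]
    exact Finset.mem_union_left _ (Finset.mem_union_left _ (Finset.mem_image_of_mem _ hx))
  have hsB : ∀ n x, x ∈ B n → x ∈ s n := by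
    intro n x hx
    cases n with
    | zero => exact Finset.mem_union_left _ hx
    | succ n =>
      rw [hss]
      exact Finset.mem_union_left _ (Finset.mem_union_right _ hx)
  have hsE : ∀ n y, y ∈ E n → ∃ x ∈ s n, σ n x = y := by
    intro n y hy
    cases n with
    | zero => exact ⟨y, Finset.mem_union_right _ hy, rfl⟩
    | succ n =>
      refine ⟨(σ (n + 1))⁻¹ y, ?_, (σ (n + 1)).apply_symm_apply y⟩
      rw [hss]
      exact Finset.mem_union_right _ (Finset.mem_image_of_mem _ hy)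
  have hiter : ∀ n x, x ∈ s n → ∀ k, g^[k] x ∈ s (n + k) ∧ σ (n + k) (g^[k] x) = σ n x := by
    intro n x hx k
    induction k with
    | zero => exact ⟨hx, rfl⟩
    | succ k ih =>
      rw [Function.iterate_succ_apply', ← add_assoc]
      exact ⟨hsg _ _ ih.1, by rw [hstep _ _ ih.1, ih.2]⟩
  choose μ hμ using hEx
  -- the value of `c n x` is `σ m (g ^ (m - n) x)` for all large `m`
  have hval : ∀ n x m, max n (μ x) ≤ m →
      σ m (g^[m - n] x) = σ (max n (μ x)) (g^[max n (μ x) - n] x) := by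
    intro n x m hm
    obtain ⟨k, rfl⟩ := Nat.exists_eq_add_of_le hm
    have h1 : g^[max n (μ x) - n] x ∈ s (max n (μ x)) := by
      apply hsB
      apply hB _ _ _ (Nat.sub_le _ _)
      exact hE (le_max_right n (μ x)) (hμ x)
    have h2 := (hiter _ _ h1 k).2
    rw [← Function.iterate_add_apply] at h2
    rw [← h2]
    congr 2
    have := le_max_left n (μ x)
    omega
  let c : ℕ → α → α := fun n x => σ (max n (μ x)) (g^[max n (μ x) - n] x)
  refine ⟨c, ?_, ?_, ?_⟩
  · intro n F
    let m := max n (F.sup μ)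
    have hm : ∀ x ∈ F, max n (μ x) ≤ m := fun x hx =>
      max_le_max_left n (Finset.le_sup (f := μ) hx)
    have hgG : InCl G (g^[m - n]) := InCl.iterate (fun t => ⟨ρ t, hρG t, hρ t⟩) _
    obtain ⟨τ, hτ, h⟩ := hgG F
    refine ⟨σ m * τ, G.mul_mem (hσG m) hτ, fun x hx => ?_⟩
    rw [Equiv.Perm.mul_apply, h x hx]
    exact hval n x m (hm x hx)
  · intro n
    funext x
    let m := max (max (n + 1) (μ (g x))) (max n (μ x))
    have h1 := hval (n + 1) (g x) m (le_max_left _ _)
    have h2 := hval n x m (le_max_right _ _)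
    change σ (max (n + 1) (μ (g x))) (g^[max (n + 1) (μ (g x)) - (n + 1)] (g x)) =
      σ (max n (μ x)) (g^[max n (μ x) - n] x)
    rw [← h1, ← h2, ← Function.iterate_succ_apply]
    have h3 : n + 1 ≤ m := le_trans (le_max_left _ _) (le_max_left _ _)
    have h4 : (m - (n + 1)).succ = m - n := by omega
    rw [h4]
  · intro y
    obtain ⟨x, hx, hxy⟩ := hsE (μ y) y (hμ y)
    refine ⟨μ y, x, ?_⟩
    obtain ⟨k, hk⟩ := Nat.exists_eq_add_of_le (le_max_left (μ y) (μ x))
    have h1 := (hiter _ _ hx k).2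
    change σ (max (μ y) (μ x)) (g^[max (μ y) (μ x) - μ y] x) = y
    rw [hk, Nat.add_sub_cancel_left, h1, hxy]

end Pool.Agent.X193.REC
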