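import Mathlib

/-!
Permutation groups and transformation monoids on countable sets with the topology of pointwise
convergence: definitions and the basic limit lemma for oligomorphic groups.
-/

namespace Pool.Agent.X193.REC

open Filter

/-- Topology of pointwise convergence on `α → α`, the set `α` being discrete. -/
@[reducible] def pw (α : Type) : TopologicalSpace (α → α) :=
  @Pi.topologicalSpace α (fun _ => α) (fun _ => ⊥)

/-- The topology which the topology of pointwise convergence induces on a type `Y` through a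
map `c` from `Y` to the self-maps of `α`. -/
@[reducible] def pwOn {Y α : Type} (c : Y → α → α) : TopologicalSpace Y :=
  TopologicalSpace.induced c (pw α)

/-- A permutation group on `α` is oligomorphic if it has finitely many orbits on `α ^ k`, for
every `k`. -/
def Oligomorphic {α : Type} (G : Subgroup (Equiv.Perm α)) : Prop :=
  ∀ k : ℕ, Finite (MulAction.orbitRel.Quotient G (Fin k → α))

/-- `f` agrees on every finite set with an element of `G`. -/
def InCl {α : Type} (G : Subgroup (Equiv.Perm α)) (f : α → α) : Prop :=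
  ∀ s : Finset α, ∃ σ ∈ G, ∀ x ∈ s, σ x = f x

theorem mem_nhds_pwOn {Y α : Type} (c : Y → α → α) (y : Y) (W : Set Y) :
    W ∈ @nhds Y (pwOn c) y ↔ ∃ s : Finset α, ∀ y', (∀ x ∈ s, c y' x = c y x) → y' ∈ W := by
  let _ : TopologicalSpace α := ⊥
  have : DiscreteTopology α := ⟨rfl⟩
  have h1 : @nhds Y (pwOn c) y = Filter.comap c (nhds (c y)) := by
    exact nhds_induced c y
  rw [h1, Filter.mem_comap]
  constructor
  · rintro ⟨V, hV, hVW⟩
    rw [nhds_pi, Filter.mem_pi] at hV
    obtain ⟨I, hI, t, ht, htV⟩ := hV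
    refine ⟨hI.toFinset, fun y' hy' => hVW (htV ?_)⟩
    intro i hi
    have h2 := ht i
    rw [nhds_discrete, Filter.mem_pure] at h2
    rw [hy' i (hI.mem_toFinset.2 hi)]
    exact h2
  · rintro ⟨s, hs⟩
    refine ⟨{z | ∀ x ∈ s, z x = c y x}, ?_, fun y' hy' => hs y' hy'⟩
    rw [nhds_pi, Filter.mem_pi]
    refine ⟨s, s.finite_toSet, fun i => {c y i}, fun i => ?_, ?_⟩
    · rw [nhds_discrete, Filter.mem_pure]; rfl
    · intro z hz x hx
      exact hz x hx

theorem continuous_pwOn {Y Z α β : Type} (c : Y → α → α) (d : Z → β → β) (φ : Y → Z) :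
    @Continuous Y Z (pwOn c) (pwOn d) φ ↔
      ∀ y b, ∃ s : Finset α, ∀ y', (∀ x ∈ s, c y' x = c y x) → d (φ y') b = d (φ y) b := by
  let _ : TopologicalSpace Y := pwOn c
  let _ : TopologicalSpace Z := pwOn d
  rw [continuous_iff_continuousAt]
  constructor
  · intro h y b
    have h1 : {z : Z | d z b = d (φ y) b} ∈ nhds (φ y) := by
      rw [mem_nhds_pwOn]
      exact ⟨{b}, fun z hz => hz b (Finset.mem_singleton_self b)⟩
    have h2 := h y h1
    rw [Filter.mem_map, mem_nhds_pwOn] at h2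
    exact h2
  · intro h y
    intro W hW
    rw [mem_nhds_pwOn] at hW
    obtain ⟨t, ht⟩ := hW
    rw [Filter.mem_map, mem_nhds_pwOn]
    classical
    choose s hs using h y
    refine ⟨t.biUnion s, fun y' hy' => ht _ fun b hb => hs b y' fun x hx => ?_⟩
    exact hy' x (Finset.mem_biUnion.2 ⟨b, hb, hx⟩)

/-- Closure in terms of finite sets. -/
theorem mem_closure_pw {α : Type} (S : Set (α → α)) (f : α → α) :
    f ∈ @closure _ (pw α) S ↔ ∀ s : Finset α, ∃ g ∈ S, ∀ x ∈ s, g x = f x := by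
  let _ : TopologicalSpace (α → α) := pw α
  have key : ∀ W : Set (α → α), W ∈ nhds f ↔
      ∃ s : Finset α, ∀ y' : α → α, (∀ x ∈ s, y' x = f x) → y' ∈ W := by
    intro W
    have := mem_nhds_pwOn (fun z : α → α => z) f W
    rwa [show pwOn (fun z : α → α => z) = pw α from induced_id] at this
  rw [mem_closure_iff_nhds]
  constructor
  · intro h s
    obtain ⟨g, hg1, hg2⟩ := h {z | ∀ x ∈ s, z x = f x} ((key _).2 ⟨s, fun y' hy' => hy'⟩)
    exact ⟨g, hg2, hg1⟩
  · intro h W hW
    obtain ⟨s, hs⟩ := (key W).1 hW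
    obtain ⟨g, hg, hgs⟩ := h s
    exact ⟨g, hs g hgs, hg⟩

section basic

variable {α : Type} {G : Subgroup (Equiv.Perm α)}

theorem InCl.inj {f : α → α} (hf : InCl G f) : Function.Injective f := by
  classical
  intro x y hxy
  obtain ⟨σ, -, hσ⟩ := hf {x, y}
  have h1 := hσ x (by simp)
  have h2 := hσ y (by simp)
  exact σ.injective (by rw [h1, h2, hxy])

theorem InCl.comp {f g : α → α} (hf : InCl G f) (hg : InCl G g) : InCl G (f ∘ g) := by
  classical
  intro s
  obtain ⟨σ, hσ, h1⟩ := hf (s.image g)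
  obtain ⟨τ, hτ, h2⟩ := hg s
  refine ⟨σ * τ, G.mul_mem hσ hτ, fun x hx => ?_⟩
  rw [Equiv.Perm.mul_apply, h2 x hx, h1 _ (Finset.mem_image_of_mem g hx)]
  rfl

theorem InCl.of_mem {σ : Equiv.Perm α} (h : σ ∈ G) : InCl G σ :=
  fun _ => ⟨σ, h, fun _ _ => rfl⟩

theorem InCl.one : InCl G (id : α → α) := fun _ => ⟨1, G.one_mem, fun _ _ => rfl⟩

theorem InCl.iterate {f : α → α} (hf : InCl G f) (n : ℕ) : InCl G (f^[n]) := by
  induction n with
  | zero => exact InCl.one
  | succ n ih => rw [Function.iterate_succ]; exact ih.comp hf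

end basic

/-- One step of the limit construction. -/
theorem limit_step {α S : Type} {G : Subgroup (Equiv.Perm α)} (hG : Oligomorphic G)
    (U : Ultrafilter S) (t : S → ℕ → α) (n : ℕ) (T : ℕ → α)
    (hT : ∀ᶠ s in (U : Filter S), ∃ σ ∈ G, ∀ j < n, T j = σ (t s j)) :
    ∃ a : α, ∀ᶠ s in (U : Filter S), ∃ σ ∈ G, ∀ j < n + 1,
      Function.update T n a j = σ (t s j) := by
  classical
  have := hG (n + 1)
  let cl : S → MulAction.orbitRel.Quotient G (Fin (n + 1) → α) :=
    fun s => Quotient.mk'' (fun i : Fin (n + 1) => t s i)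
  obtain ⟨q, hq⟩ : ∃ q, ∀ᶠ s in (U : Filter S), cl s = q := by
    have h1 : ∀ᶠ s in (U : Filter S), ∃ q, cl s = q := Filter.Eventually.of_forall fun s => ⟨_, rfl⟩
    exact Ultrafilter.eventually_exists_iff.1 h1
  obtain ⟨s0, ⟨σ0, hσ0, h0⟩, hq0⟩ := (hT.and hq).exists
  refine ⟨σ0 (t s0 n), hq.mono fun s hs => ?_⟩
  have h1 : cl s = cl s0 := hs.trans hq0.symm
  have h2 := Quotient.exact h1
  obtain ⟨g, hg⟩ := MulAction.orbitRel_apply.1 h2
  refine ⟨σ0 * (g : Equiv.Perm α)⁻¹, G.mul_mem hσ0 (G.inv_mem g.2), fun j hj => ?_⟩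
  have h3 : (g : Equiv.Perm α) (t s0 j) = t s j := congrFun hg ⟨j, hj⟩
  rw [Equiv.Perm.mul_apply, ← h3, show (g : Equiv.Perm α)⁻¹ ((g : Equiv.Perm α) (t s0 j)) = t s0 j from (g : Equiv.Perm α).symm_apply_apply _]
  rcases Nat.lt_succ_iff_lt_or_eq.1 hj with h | h
  · rw [Function.update_of_ne (ne_of_lt h)]
    exact h0 j h
  · subst h
    rw [Function.update_self]

theorem limit_nat {α S : Type} {G : Subgroup (Equiv.Perm α)} (hG : Oligomorphic G)
    (U : Ultrafilter S) (t : S → ℕ → α) :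
    ∃ T : ℕ → α, ∀ n, ∀ᶠ s in (U : Filter S), ∃ σ ∈ G, ∀ j < n, T j = σ (t s j) := by
  classical
  obtain ⟨s0⟩ : Nonempty S := by
    obtain ⟨s, -⟩ := (U : Filter S).nonempty_of_mem (Filter.univ_mem)
    exact ⟨s⟩
  let P : ℕ → (ℕ → α) → Prop := fun n T =>
    ∀ᶠ s in (U : Filter S), ∃ σ ∈ G, ∀ j < n, T j = σ (t s j)
  have hstep : ∀ (n : ℕ) (T : ℕ → α), ∃ a : α, P n T → P (n + 1) (Function.update T n a) := by
    intro n T
    by_cases h : P n T
    · obtain ⟨a, ha⟩ := limit_step hG U t n T h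
      exact ⟨a, fun _ => ha⟩
    · exact ⟨T 0, fun h' => absurd h' h⟩
  choose nx hnx using hstep
  let st : ℕ → (ℕ → α) := fun n =>
    Nat.rec (t s0) (fun n T => Function.update T n (nx n T)) n
  have hst : ∀ n, st (n + 1) = Function.update (st n) n (nx n (st n)) := fun n => rfl
  have hP : ∀ n, P n (st n) := by
    intro n
    induction n with
    | zero => exact Filter.Eventually.of_forall fun s => ⟨1, G.one_mem, fun j hj => absurd hj (Nat.not_lt_zero j)⟩
    | succ n ih => rw [hst]; exact hnx n (st n) ih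
  have hag : ∀ j m, j < m → st m j = st (j + 1) j := by
    intro j m hjm
    induction m with
    | zero => exact absurd hjm (Nat.not_lt_zero j)
    | succ m ih =>
      rcases Nat.lt_succ_iff_lt_or_eq.1 hjm with h | h
      · rw [hst, Function.update_of_ne (ne_of_lt h), ih h]
      · subst h; rfl
  refine ⟨fun j => st (j + 1) j, fun n => (hP n).mono fun s hs => ?_⟩
  obtain ⟨σ, hσ, h⟩ := hs
  exact ⟨σ, hσ, fun j hj => by rw [← h j hj, hag j n hj]⟩

/-- The limit lemma: along an ultrafilter, every family of maps from a countable set `J` to `α`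
has a limit, up to the oligomorphic group `G`. -/
theorem limit {α S J : Type} [Countable J] {G : Subgroup (Equiv.Perm α)} (hG : Oligomorphic G)
    (U : Ultrafilter S) (t : S → J → α) :
    ∃ T : J → α, ∀ F : Finset J, ∀ᶠ s in (U : Filter S), ∃ σ ∈ G, ∀ j ∈ F, T j = σ (t s j) := by
  classical
  rcases isEmpty_or_nonempty J with hJ | hJ
  · refine ⟨fun j => (hJ.false j).elim, fun F => Filter.Eventually.of_forall fun s =>
      ⟨1, G.one_mem, fun j _ => (hJ.false j).elim⟩⟩
  · obtain ⟨e, he⟩ := exists_surjective_nat J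
    obtain ⟨T, hT⟩ := limit_nat hG U (fun s n => t s (e n))
    choose r hr using he
    refine ⟨fun j => T (r j), fun F => ?_⟩
    refine (hT (F.sup r + 1)).mono fun s hs => ?_
    obtain ⟨σ, hσ, h⟩ := hs
    refine ⟨σ, hσ, fun j hj => ?_⟩
    have h1 := h (r j) (Nat.lt_succ_of_le (Finset.le_sup (f := r) hj))
    rw [hr] at h1
    exact h1

end Pool.Agent.X193.REC
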