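import Pool.Agent.X193.REC.Closure

/-!
A closed monoid `N` of self-maps of a countable set with an oligomorphic unit group, in which
countable families are directed and every element has a colimit, has a dense group of units.
-/

namespace Pool.Agent.X193.REC

open Filter

/-- The finite set `s` is recoverable: every element of `N` is undone on `s` by an element
of `N`. -/
def TopS {X : Type} (N : Set (X → X)) (s : Finset X) : Prop :=
  ∀ F ∈ N, ∃ G ∈ N, ∀ x ∈ s, G (F x) = x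

section

variable {X : Type} {N : Set (X → X)}

theorem TopS.image [DecidableEq X] (hcomp : ∀ f ∈ N, ∀ g ∈ N, f ∘ g ∈ N) {s : Finset X}
    (hs : TopS N s) {F : X → X} (hF : F ∈ N) : TopS N (s.image F) := by
  intro F' hF'
  obtain ⟨G, hG, h⟩ := hs (F' ∘ F) (hcomp _ hF' _ hF)
  refine ⟨F ∘ G, hcomp _ hF _ hG, fun y hy => ?_⟩
  obtain ⟨x, hx, rfl⟩ := Finset.mem_image.1 hy
  exact congrArg F (h x hx)

theorem TopS.mono {s t : Finset X} (hs : TopS N s) (h : t ⊆ s) : TopS N t := by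
  intro F hF
  obtain ⟨G, hG, h'⟩ := hs F hF
  exact ⟨G, hG, fun x hx => h' x (h hx)⟩

theorem exists_top [DecidableEq X] (hone : id ∈ N) (hcomp : ∀ f ∈ N, ∀ g ∈ N, f ∘ g ∈ N)
    {U : Subgroup (Equiv.Perm X)} (hUN : ∀ σ ∈ U, (σ : X → X) ∈ N) (hU : Oligomorphic U)
    (s : Finset X) : ∃ F ∈ N, TopS N (s.image F) := by
  classical
  let k := s.card
  let b : Fin k → X := fun i => (s.equivFin.symm i : X)
  have hb : ∀ x ∈ s, ∃ i, b i = x := fun x hx => ⟨s.equivFin ⟨x, hx⟩, by simp [b]⟩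
  let Q := MulAction.orbitRel.Quotient U (Fin k → X)
  have hQ : Finite Q := hU k
  let R : (X → X) → Set Q := fun F => {q | ∃ G ∈ N, q = Quotient.mk'' (G ∘ F ∘ b)}
  have hne : ∃ n, ∃ F ∈ N, (R F).ncard = n := ⟨_, id, hone, rfl⟩
  let n0 := Nat.find hne
  obtain ⟨F, hF, hFn⟩ := Nat.find_spec hne
  refine ⟨F, hF, ?_⟩
  intro F' hF'
  have hsub : R (F' ∘ F) ⊆ R F := by
    rintro q ⟨G, hG, rfl⟩
    exact ⟨G ∘ F', hcomp _ hG _ hF', rfl⟩
  have hle : (R F).ncard ≤ (R (F' ∘ F)).ncard := by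
    rw [hFn]
    exact Nat.find_min' hne ⟨F' ∘ F, hcomp _ hF' _ hF, rfl⟩
  have heq : R (F' ∘ F) = R F :=
    Set.eq_of_subset_of_ncard_le hsub hle (Set.toFinite _)
  have hmem : (Quotient.mk'' (F ∘ b) : Q) ∈ R (F' ∘ F) := by
    rw [heq]
    exact ⟨id, hone, rfl⟩
  obtain ⟨G, hG, hq⟩ := hmem
  have h2 := Quotient.exact hq
  obtain ⟨u, hu⟩ := MulAction.orbitRel_apply.1 h2
  refine ⟨(u : Equiv.Perm X) ∘ G, hcomp _ (hUN _ u.2) _ hG, fun y hy => ?_⟩
  obtain ⟨x, hx, rfl⟩ := Finset.mem_image.1 hy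
  obtain ⟨i, rfl⟩ := hb x hx
  exact congrFun hu i

theorem exists_K [Countable X] [DecidableEq X] (hone : id ∈ N)
    (hcomp : ∀ f ∈ N, ∀ g ∈ N, f ∘ g ∈ N)
    {U : Subgroup (Equiv.Perm X)} (hUN : ∀ σ ∈ U, (σ : X → X) ∈ N) (hU : Oligomorphic U)
    (hdir : ∀ F : ℕ → X → X, (∀ i, F i ∈ N) →
      ∃ (H : ℕ → X → X) (K : X → X), (∀ i, H i ∈ N) ∧ K ∈ N ∧ ∀ i, H i ∘ F i = K) :
    ∃ K ∈ N, ∀ s : Finset X, TopS N (s.image K) := by
  obtain ⟨e, he⟩ := exists_surjective_nat (Finset X)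
  choose F hF hFt using fun s : Finset X => exists_top hone hcomp hUN hU s
  obtain ⟨H, K, hH, hK, hHK⟩ := hdir (fun n => F (e n)) (fun n => hF (e n))
  refine ⟨K, hK, fun s => ?_⟩
  obtain ⟨n, rfl⟩ := he s
  have h1 := (hFt (e n)).image hcomp (hH n)
  rw [Finset.image_image] at h1
  rw [← hHK n]
  exact h1

/-- Finite supports, from joint epimorphy. -/
theorem support [Countable X] {U : Subgroup (Equiv.Perm X)}
    (hcomp : ∀ f ∈ N, ∀ g ∈ N, f ∘ g ∈ N) (hUN : ∀ σ ∈ U, (σ : X → X) ∈ N)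
    (hclosed : ∀ f : X → X, (∀ s : Finset X, ∃ h ∈ N, ∀ x ∈ s, h x = f x) → f ∈ N)
    (hU : Oligomorphic U) (D : Set X)
    (hD : ∀ h ∈ N, ∀ h' ∈ N, (∀ x ∈ D, h x = h' x) → h = h') (b : X) :
    ∃ s : Finset X, (↑s ⊆ D) ∧ ∀ h ∈ N, ∀ h' ∈ N, (∀ x ∈ s, h x = h' x) → h b = h' b := by
  classical
  by_contra hcon
  push Not at hcon
  have hcon' : ∀ s : Finset D, ∃ h ∈ N, ∃ h' ∈ N, (∀ x ∈ s, h (x : X) = h' x) ∧ h b ≠ h' b := by
    intro s
    obtain ⟨h, hh, h', hh', h1, h2⟩ := hcon (s.image Subtype.val) (by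
      intro x hx
      rw [Finset.coe_image] at hx
      obtain ⟨y, -, rfl⟩ := hx
      exact y.2)
    exact ⟨h, hh, h', hh', fun x hx => h1 x (Finset.mem_image_of_mem _ hx), h2⟩
  choose h hh h' hh' h1 h2 using hcon'
  let V : Ultrafilter (Finset D) := Ultrafilter.of Filter.atTop
  have hV : ∀ x : D, ∀ᶠ s in (V : Filter (Finset D)), x ∈ s := by
    intro x
    have h1 : ∀ᶠ s in (Filter.atTop : Filter (Finset D)), x ∈ s := by
      filter_upwards [Filter.eventually_ge_atTop ({x} : Finset D)] with s hs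
      exact hs (Finset.mem_singleton_self x)
    exact (Ultrafilter.of_le _) h1
  let t : Finset D → X ⊕ X → X := fun s j =>
    match j with
    | Sum.inl x => h s x
    | Sum.inr x => h' s x
  obtain ⟨T, hT⟩ := limit hU V t
  have hH : (fun x => T (Sum.inl x)) ∈ N := by
    apply hclosed
    intro F
    obtain ⟨s, σ, hσ, hs⟩ := (hT (F.image Sum.inl)).exists
    exact ⟨σ ∘ h s, hcomp _ (hUN _ hσ) _ (hh s), fun x hx =>
      (hs (Sum.inl x) (Finset.mem_image_of_mem _ hx)).symm⟩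
  have hH' : (fun x => T (Sum.inr x)) ∈ N := by
    apply hclosed
    intro F
    obtain ⟨s, σ, hσ, hs⟩ := (hT (F.image Sum.inr)).exists
    exact ⟨σ ∘ h' s, hcomp _ (hUN _ hσ) _ (hh' s), fun x hx =>
      (hs (Sum.inr x) (Finset.mem_image_of_mem _ hx)).symm⟩
  have heq := hD _ hH _ hH' (by
    intro x hx
    obtain ⟨s, ⟨σ, -, hs⟩, hxs⟩ := ((hT {Sum.inl x, Sum.inr x}).and (hV ⟨x, hx⟩)).exists
    have e1 := hs (Sum.inl x) (by simp)
    have e2 := hs (Sum.inr x) (by simp)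
    have e3 : h s x = h' s x := h1 s ⟨x, hx⟩ hxs
    change T (Sum.inl x) = T (Sum.inr x)
    rw [e1, e2]
    exact congrArg σ e3)
  obtain ⟨s, σ, -, hs⟩ := (hT {Sum.inl b, Sum.inr b}).exists
  have e1 := hs (Sum.inl b) (by simp)
  have e2 := hs (Sum.inr b) (by simp)
  have e3 : T (Sum.inl b) = T (Sum.inr b) := congrFun heq b
  rw [e1, e2] at e3
  exact h2 s (σ.injective e3)

theorem all_top [Countable X] (hone : id ∈ N) (hcomp : ∀ f ∈ N, ∀ g ∈ N, f ∘ g ∈ N)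
    (hclosed : ∀ f : X → X, (∀ s : Finset X, ∃ h ∈ N, ∀ x ∈ s, h x = f x) → f ∈ N)
    {U : Subgroup (Equiv.Perm X)} (hUN : ∀ σ ∈ U, (σ : X → X) ∈ N) (hU : Oligomorphic U)
    (hdir : ∀ F : ℕ → X → X, (∀ i, F i ∈ N) →
      ∃ (H : ℕ → X → X) (K : X → X), (∀ i, H i ∈ N) ∧ K ∈ N ∧ ∀ i, H i ∘ F i = K)
    (hch : ∀ g ∈ N, ∃ c : ℕ → X → X, (∀ n, c n ∈ N) ∧ (∀ n, c (n + 1) ∘ g = c n) ∧
      ∀ h ∈ N, ∀ h' ∈ N, (∀ n, h ∘ c n = h' ∘ c n) → h = h') (t : Finset X) : TopS N t := by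
  classical
  obtain ⟨K, hK, hKt⟩ := exists_K hone hcomp hUN hU hdir
  obtain ⟨c, hc, hcK, hce⟩ := hch K hK
  let D : Set X := {y | ∃ n x, c n x = y}
  have hD : ∀ h ∈ N, ∀ h' ∈ N, (∀ x ∈ D, h x = h' x) → h = h' := by
    intro h hh h' hh' he
    apply hce h hh h' hh'
    intro n
    funext x
    exact he _ ⟨n, x, rfl⟩
  choose s hsD hs using fun b => support hcomp hUN hclosed hU D hD b
  -- monotonicity of the images
  have hmono : ∀ n m, n ≤ m → ∀ x, ∃ y, c m y = c n x := by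
    intro n m hnm
    induction m with
    | zero => intro x; exact ⟨x, by rw [Nat.le_zero.1 hnm]⟩
    | succ m ih =>
      intro x
      rcases Nat.le_succ_iff.1 hnm with h | h
      · obtain ⟨y, hy⟩ := ih h x
        exact ⟨K y, by rw [← hy, ← hcK m]; rfl⟩
      · exact ⟨x, by rw [h]⟩
  -- every finite subset of `D` is recoverable
  have hfin : ∀ u : Finset X, ↑u ⊆ D → TopS N u := by
    intro u hu
    have hu' : ∀ y : X, ∃ n, ∃ x, y ∈ u → c n x = y := by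
      intro y
      by_cases hy : y ∈ u
      · obtain ⟨n, x, h⟩ := hu hy
        exact ⟨n, x, fun _ => h⟩
      · exact ⟨0, y, fun h => absurd h hy⟩
    choose ν hν using hu'
    let m := u.sup ν
    have hx : ∀ y : X, ∃ x, y ∈ u → c m x = y := by
      intro y
      by_cases hy : y ∈ u
      · obtain ⟨x, hx⟩ := hν y
        obtain ⟨z, hz⟩ := hmono (ν y) m (Finset.le_sup (f := ν) hy) x
        exact ⟨z, fun _ => hz.trans (hx hy)⟩
      · exact ⟨y, fun h => absurd h hy⟩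
    choose ξ hξ using hx
    have h1 := ((hKt (u.image ξ)).image hcomp (hc (m + 1)))
    refine h1.mono fun y hy => ?_
    refine Finset.mem_image.2 ⟨K (ξ y), Finset.mem_image_of_mem _ (Finset.mem_image_of_mem _ hy), ?_⟩
    have h2 : c (m + 1) (K (ξ y)) = c m (ξ y) := congrFun (hcK m) (ξ y)
    rw [h2, hξ y hy]
  have h1 : TopS N (t.biUnion s) := hfin _ (by
    intro x hx
    rw [Finset.mem_coe, Finset.mem_biUnion] at hx
    obtain ⟨b, -, hb⟩ := hx
    exact hsD b hb)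
  intro F hF
  obtain ⟨G, hG, h⟩ := h1 F hF
  refine ⟨G, hG, fun b hb => ?_⟩
  exact hs b (G ∘ F) (hcomp _ hG _ hF) id hone fun x hx =>
    h x (Finset.mem_biUnion.2 ⟨b, hb, hx⟩)

/-- Back and forth: if every finite set is recoverable, then the units are dense. -/
theorem back_forth [Countable X] (hcomp : ∀ f ∈ N, ∀ g ∈ N, f ∘ g ∈ N)
    (hclosed : ∀ f : X → X, (∀ s : Finset X, ∃ h ∈ N, ∀ x ∈ s, h x = f x) → f ∈ N)
    (htop : ∀ s : Finset X, TopS N s) {F : X → X} (hF : F ∈ N) (t : Finset X) :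
    ∃ u : Equiv.Perm X, (u : X → X) ∈ N ∧ ((u⁻¹ : Equiv.Perm X) : X → X) ∈ N ∧
      ∀ x ∈ t, u x = F x := by
  classical
  obtain ⟨E, hE, hEx⟩ := exhaust X
  have hinv : ∀ (F : N) (s : Finset X), ∃ G : N, ∀ x ∈ s, (G : X → X) ((F : X → X) x) = x := by
    intro F s
    obtain ⟨G, hG, h⟩ := htop s F F.2
    exact ⟨⟨G, hG⟩, h⟩
  choose inv hinv' using hinv
  let nxt : ℕ → (N × Finset X) → (N × Finset X) := fun n p =>
    (inv (inv p.1 p.2) (p.2.image (p.1 : X → X) ∪ E n),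
      p.2 ∪ (E n).image (inv p.1 p.2 : X → X) ∪ E n)
  let st : ℕ → (N × Finset X) := fun n => Nat.rec ((⟨F, hF⟩ : N), t) nxt n
  let f : ℕ → X → X := fun n => ((st n).1 : X → X)
  let s : ℕ → Finset X := fun n => (st n).2
  let g : ℕ → X → X := fun n => (inv (st n).1 (st n).2 : X → X)
  have hf0 : f 0 = F := rfl
  have hs0 : s 0 = t := rfl
  have hfN : ∀ n, f n ∈ N := fun n => (st n).1.2
  have hgN : ∀ n, g n ∈ N := fun n => (inv (st n).1 (st n).2).2
  have hgf : ∀ n, ∀ x ∈ s n, g n (f n x) = x := fun n x hx => hinv' (st n).1 (st n).2 x hx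
  have hsS : ∀ n, s (n + 1) = s n ∪ (E n).image (g n) ∪ E n := fun n => rfl
  have hfS : ∀ n, ∀ z ∈ (s n).image (f n) ∪ E n, f (n + 1) (g n z) = z := fun n z hz =>
    hinv' (inv (st n).1 (st n).2) ((st n).2.image ((st n).1 : X → X) ∪ E n) z hz
  have hstep : ∀ n, ∀ x ∈ s n, f (n + 1) x = f n x := by
    intro n x hx
    have h1 := hfS n (f n x) (Finset.mem_union_left _ (Finset.mem_image_of_mem _ hx))
    rwa [hgf n x hx] at h1
  have hsmono : ∀ n, s n ⊆ s (n + 1) := by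
    intro n x hx
    rw [hsS]
    exact Finset.mem_union_left _ (Finset.mem_union_left _ hx)
  have hsE : ∀ n, E n ⊆ s (n + 1) := by
    intro n x hx
    rw [hsS]
    exact Finset.mem_union_right _ hx
  have hrange : ∀ n, ∀ y ∈ E n, ∃ x ∈ s (n + 1), f (n + 1) x = y := by
    intro n y hy
    refine ⟨g n y, ?_, hfS n y (Finset.mem_union_right _ hy)⟩
    rw [hsS]
    exact Finset.mem_union_left _ (Finset.mem_union_right _ (Finset.mem_image_of_mem _ hy))
  have hmono : ∀ n m, n ≤ m → s n ⊆ s m := by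
    intro n m hnm
    induction m with
    | zero => rw [Nat.le_zero.1 hnm]
    | succ m ih =>
      rcases Nat.le_succ_iff.1 hnm with h | h
      · exact (ih h).trans (hsmono m)
      · rw [h]
  have hag : ∀ n m, n ≤ m → ∀ x ∈ s n, f m x = f n x := by
    intro n m hnm x hx
    induction m with
    | zero => rw [Nat.le_zero.1 hnm]
    | succ m ih =>
      rcases Nat.le_succ_iff.1 hnm with h | h
      · rw [hstep m x (hmono n m h hx), ih h]
      · rw [h]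
  choose μ hμ using hEx
  have hμs : ∀ x, x ∈ s (μ x + 1) := fun x => hsE _ (hμ x)
  let v : X → X := fun x => f (μ x + 1) x
  have hv : ∀ n, ∀ x ∈ s n, v x = f n x := by
    intro n x hx
    rcases le_total n (μ x + 1) with h | h
    · exact hag n _ h x hx
    · exact (hag _ n h x (hμs x)).symm
  have hvfin : ∀ w : Finset X, ∃ n, w ⊆ s n := by
    intro w
    exact ⟨w.sup μ + 1, fun x hx => hmono _ _ (Nat.succ_le_succ (Finset.le_sup (f := μ) hx)) (hμs x)⟩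
  have hvN : v ∈ N := by
    apply hclosed
    intro w
    obtain ⟨n, hn⟩ := hvfin w
    exact ⟨f n, hfN n, fun x hx => (hv n x (hn hx)).symm⟩
  have hvinj : Function.Injective v := by
    intro x y hxy
    obtain ⟨n, hn⟩ := hvfin {x, y}
    have hx := hn (show x ∈ ({x, y} : Finset X) by simp)
    have hy := hn (show y ∈ ({x, y} : Finset X) by simp)
    rw [hv n x hx, hv n y hy] at hxy
    rw [← hgf n x hx, ← hgf n y hy, hxy]
  have hvsur : Function.Surjective v := by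
    intro y
    obtain ⟨x, hx, hxy⟩ := hrange (μ y) y (hμ y)
    exact ⟨x, (hv (μ y + 1) x hx).trans hxy⟩
  let u : Equiv.Perm X := Equiv.ofBijective v ⟨hvinj, hvsur⟩
  have huv : ∀ x, u x = v x := fun x => rfl
  refine ⟨u, hvN, ?_, fun x hx => ?_⟩
  · apply hclosed
    intro w
    obtain ⟨n, hn⟩ := hvfin (w.image (u⁻¹ : Equiv.Perm X))
    refine ⟨g n, hgN n, fun y hy => ?_⟩
    have h1 := hn (Finset.mem_image_of_mem _ hy)
    have h2 := hgf n _ h1
    rw [← hv n _ h1, ← huv] at h2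
    rw [show u ((u⁻¹ : Equiv.Perm X) y) = y from u.apply_symm_apply y] at h2
    exact h2
  · rw [huv, hv 0 x hx, hf0]

end

/-- The units are dense. -/
theorem density {X : Type} [Countable X] {N : Set (X → X)} (hone : id ∈ N)
    (hcomp : ∀ f ∈ N, ∀ g ∈ N, f ∘ g ∈ N)
    (hclosed : ∀ f : X → X, (∀ s : Finset X, ∃ h ∈ N, ∀ x ∈ s, h x = f x) → f ∈ N)
    {U : Subgroup (Equiv.Perm X)}
    (hUN : ∀ σ : Equiv.Perm X, σ ∈ U ↔ (σ : X → X) ∈ N ∧ ((σ⁻¹ : Equiv.Perm X) : X → X) ∈ N)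
    (hU : Oligomorphic U)
    (hdir : ∀ F : ℕ → X → X, (∀ i, F i ∈ N) →
      ∃ (H : ℕ → X → X) (K : X → X), (∀ i, H i ∈ N) ∧ K ∈ N ∧ ∀ i, H i ∘ F i = K)
    (hch : ∀ g ∈ N, ∃ c : ℕ → X → X, (∀ n, c n ∈ N) ∧ (∀ n, c (n + 1) ∘ g = c n) ∧
      ∀ h ∈ N, ∀ h' ∈ N, (∀ n, h ∘ c n = h' ∘ c n) → h = h') {F : X → X} (hF : F ∈ N) :
    InCl U F := by
  intro t
  obtain ⟨u, h1, h2, h3⟩ := back_forth hcomp hclosed
    (fun s => all_top hone hcomp hclosed (fun σ hσ => ((hUN σ).1 hσ).1) hU hdir hch s) hF t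
  exact ⟨u, (hUN u).2 ⟨h1, h2⟩, h3⟩

end Pool.Agent.X193.REC
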