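import Pool.Agent.X193.REC.Density

/-!
The closure of a permutation group in the monoid of all self-maps is determined by the
topological group: topological isomorphisms extend to the closures.
-/

namespace Pool.Agent.X193.REC

/-- The self-map underlying an element of the monoid `Function.End α` of all self-maps of `α`
(whose multiplication is composition). -/
def fn {α : Type} (f : Function.End α) : α → α := f

theorem fn_mul {α : Type} (f g : Function.End α) : fn (f * g) = fn f ∘ fn g := rfl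

theorem fn_one {α : Type} : fn (1 : Function.End α) = id := rfl

theorem fn_inj {α : Type} {f g : Function.End α} (h : fn f = fn g) : f = g := h

theorem mem_closure_perm {α : Type} (G : Subgroup (Equiv.Perm α)) (f : α → α) :
    f ∈ @closure (α → α) (pw α) {h | ∃ σ ∈ G, h = (σ : α → α)} ↔ InCl G f := by
  rw [mem_closure_pw]
  constructor
  · intro h s
    obtain ⟨_, ⟨σ, hσ, rfl⟩, h1⟩ := h s
    exact ⟨σ, hσ, h1⟩
  · intro h s
    obtain ⟨σ, hσ, h1⟩ := h s
    exact ⟨_, ⟨σ, hσ, rfl⟩, h1⟩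

/-- The closure of a permutation group `G` on `α` in the monoid of all self-maps of `α`, for
pointwise convergence. -/
def clM {α : Type} (G : Subgroup (Equiv.Perm α)) : Submonoid (Function.End α) where
  carrier := {f | fn f ∈ @closure (α → α) (pw α) {h | ∃ σ ∈ G, h = (σ : α → α)}}
  one_mem' := (mem_closure_perm G _).2 InCl.one
  mul_mem' := by
    intro f g hf hg
    exact (mem_closure_perm G _).2
      (((mem_closure_perm G _).1 hf).comp ((mem_closure_perm G _).1 hg))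

theorem mem_clM {α : Type} {G : Subgroup (Equiv.Perm α)} (f : Function.End α) :
    f ∈ clM G ↔ InCl G (fn f) := mem_closure_perm G (fn f)

/-- Topological isomorphism of two groups or monoids `P`, `Q` of self-maps of `α`, `β` (given by
`c`, `d`): some multiplicative isomorphism is a homeomorphism for pointwise convergence. -/
def TopIso {P Q α β : Type} [Mul P] [Mul Q] (c : P → α → α) (d : Q → β → β) : Prop :=
  ∃ e : P ≃* Q, @Continuous P Q (pwOn c) (pwOn d) e ∧ @Continuous Q P (pwOn d) (pwOn c) e.symm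

section

variable {α β : Type} {G : Subgroup (Equiv.Perm α)} {H : Subgroup (Equiv.Perm β)}

/-- The modulus of a continuous homomorphism. -/
theorem modulus (ψ : G ≃* H)
    (h : @Continuous G H (pwOn fun g : G => ((g : Equiv.Perm α) : α → α))
      (pwOn fun g : H => ((g : Equiv.Perm β) : β → β)) ψ) (b : β) :
    ∃ s : Finset α, ∀ g g' : G, (∀ x ∈ s, (g : Equiv.Perm α) x = (g' : Equiv.Perm α) x) →
      ((ψ g : H) : Equiv.Perm β) b = ((ψ g' : H) : Equiv.Perm β) b := by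
  obtain ⟨s, hs⟩ := (continuous_pwOn _ _ _).1 h 1 b
  refine ⟨s, fun g g' hg => ?_⟩
  have h1 := hs (g'⁻¹ * g) (by
    intro x hx
    change ((g' : Equiv.Perm α)⁻¹ * (g : Equiv.Perm α)) x = (1 : Equiv.Perm α) x
    rw [Equiv.Perm.mul_apply, hg x hx]
    exact (g' : Equiv.Perm α).symm_apply_apply x)
  have h2 : ((ψ (g'⁻¹ * g) : H) : Equiv.Perm β) b = b := by
    rw [h1, map_one]
    rfl
  rw [map_mul, map_inv] at h2
  have h3 : ((ψ g' : H) : Equiv.Perm β)⁻¹ (((ψ g : H) : Equiv.Perm β) b) = b := h2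
  have h4 := congrArg ((ψ g' : H) : Equiv.Perm β) h3
  rwa [show ((ψ g' : H) : Equiv.Perm β) (((ψ g' : H) : Equiv.Perm β)⁻¹
    (((ψ g : H) : Equiv.Perm β) b)) = ((ψ g : H) : Equiv.Perm β) b from
    ((ψ g' : H) : Equiv.Perm β).apply_symm_apply _] at h4

/-- Existence of the extension of one homomorphism. -/
theorem ext_one (ψ : G ≃* H)
    (h : @Continuous G H (pwOn fun g : G => ((g : Equiv.Perm α) : α → α))
      (pwOn fun g : H => ((g : Equiv.Perm β) : β → β)) ψ) :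
    ∃ (s : β → Finset α) (Φ : (α → α) → β → β), ∀ f, InCl G f → ∀ (b : β) (u : G),
      (∀ x ∈ s b, (u : Equiv.Perm α) x = f x) → Φ f b = ((ψ u : H) : Equiv.Perm β) b := by
  classical
  choose s hs using modulus ψ h
  have hex : ∀ (f : α → α) (b : β), ∃ y, InCl G f → ∀ u : G,
      (∀ x ∈ s b, (u : Equiv.Perm α) x = f x) → y = ((ψ u : H) : Equiv.Perm β) b := by
    intro f b
    by_cases hf : InCl G f
    · obtain ⟨σ, hσ, h1⟩ := hf (s b)
      refine ⟨((ψ ⟨σ, hσ⟩ : H) : Equiv.Perm β) b, fun _ u hu => ?_⟩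
      exact hs b _ _ fun x hx => (h1 x hx).trans (hu x hx).symm
    · exact ⟨b, fun h' => absurd h' hf⟩
  choose Φ hΦ using hex
  exact ⟨s, Φ, fun f hf b u hu => hΦ f b hf u hu⟩

/-- Topological isomorphisms extend to the closures. -/
theorem extend (ψ : G ≃* H)
    (h1 : @Continuous G H (pwOn fun g : G => ((g : Equiv.Perm α) : α → α))
      (pwOn fun g : H => ((g : Equiv.Perm β) : β → β)) ψ)
    (h2 : @Continuous H G (pwOn fun g : H => ((g : Equiv.Perm β) : β → β))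
      (pwOn fun g : G => ((g : Equiv.Perm α) : α → α)) ψ.symm) :
    TopIso (fun f : clM G => fn f.1) (fun f : clM H => fn f.1) := by
  classical
  obtain ⟨s, Φ, hΦ⟩ := ext_one ψ h1
  obtain ⟨s', Ψ, hΨ⟩ := ext_one ψ.symm h2
  -- values of the extension
  have hInC : ∀ f, InCl G f → InCl H (Φ f) := by
    intro f hf t
    obtain ⟨σ, hσ, h⟩ := hf (t.biUnion s)
    refine ⟨ψ ⟨σ, hσ⟩, (ψ ⟨σ, hσ⟩).2, fun b hb => ?_⟩
    exact (hΦ f hf b ⟨σ, hσ⟩ fun x hx => h x (Finset.mem_biUnion.2 ⟨b, hb, hx⟩)).symm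
  have hInC' : ∀ f, InCl H f → InCl G (Ψ f) := by
    intro f hf t
    obtain ⟨σ, hσ, h⟩ := hf (t.biUnion s')
    refine ⟨ψ.symm ⟨σ, hσ⟩, (ψ.symm ⟨σ, hσ⟩).2, fun b hb => ?_⟩
    exact (hΨ f hf b ⟨σ, hσ⟩ fun x hx => h x (Finset.mem_biUnion.2 ⟨b, hb, hx⟩)).symm
  have hmul : ∀ f f', InCl G f → InCl G f' → Φ (f ∘ f') = Φ f ∘ Φ f' := by
    intro f f' hf hf'
    funext b
    obtain ⟨τ, hτ, h3⟩ := hf' (s b)
    have e1 := hΦ f' hf' b ⟨τ, hτ⟩ h3
    obtain ⟨σ, hσ, h4⟩ := hf ((s b).image f' ∪ s (Φ f' b))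
    have e2 := hΦ f hf (Φ f' b) ⟨σ, hσ⟩ fun x hx => h4 x (Finset.mem_union_right _ hx)
    have e3 := hΦ (f ∘ f') (hf.comp hf') b (⟨σ, hσ⟩ * ⟨τ, hτ⟩) (by
      intro x hx
      change (σ * τ) x = f (f' x)
      rw [Equiv.Perm.mul_apply, h3 x hx]
      exact h4 _ (Finset.mem_union_left _ (Finset.mem_image_of_mem _ hx)))
    rw [e3, map_mul]
    change _ = Φ f (Φ f' b)
    rw [e2, e1]
    rfl
  have hleft : ∀ f, InCl G f → Ψ (Φ f) = f := by
    intro f hf
    funext a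
    obtain ⟨σ, hσ, h3⟩ := hf ({a} ∪ (s' a).biUnion s)
    have e1 := hΨ (Φ f) (hInC f hf) a (ψ ⟨σ, hσ⟩) (by
      intro b hb
      exact (hΦ f hf b ⟨σ, hσ⟩ fun x hx => h3 x
        (Finset.mem_union_right _ (Finset.mem_biUnion.2 ⟨b, hb, hx⟩))).symm)
    rw [e1, MulEquiv.symm_apply_apply]
    exact h3 a (Finset.mem_union_left _ (Finset.mem_singleton_self a))
  have hright : ∀ f, InCl H f → Φ (Ψ f) = f := by
    intro f hf
    funext a
    obtain ⟨σ, hσ, h3⟩ := hf ({a} ∪ (s a).biUnion s')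
    have e1 := hΦ (Ψ f) (hInC' f hf) a (ψ.symm ⟨σ, hσ⟩) (by
      intro b hb
      exact (hΨ f hf b ⟨σ, hσ⟩ fun x hx => h3 x
        (Finset.mem_union_right _ (Finset.mem_biUnion.2 ⟨b, hb, hx⟩))).symm)
    rw [e1, MulEquiv.apply_symm_apply]
    exact h3 a (Finset.mem_union_left _ (Finset.mem_singleton_self a))
  let e : clM G ≃* clM H :=
    { toFun := fun f => ⟨Φ (fn f.1), (mem_clM _).2 (hInC _ ((mem_clM _).1 f.2))⟩
      invFun := fun f => ⟨Ψ (fn f.1), (mem_clM _).2 (hInC' _ ((mem_clM _).1 f.2))⟩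
      left_inv := fun f => Subtype.ext (hleft _ ((mem_clM _).1 f.2))
      right_inv := fun f => Subtype.ext (hright _ ((mem_clM _).1 f.2))
      map_mul' := fun f g => Subtype.ext
        (hmul _ _ ((mem_clM _).1 f.2) ((mem_clM _).1 g.2)) }
  have he : ∀ f : clM G, fn (e f).1 = Φ (fn f.1) := fun f => rfl
  have he' : ∀ f : clM H, fn (e.symm f).1 = Ψ (fn f.1) := fun f => rfl
  refine ⟨e, ?_, ?_⟩
  · refine (continuous_pwOn _ _ _).2 fun f b => ⟨s b, fun f' hf' => ?_⟩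
    obtain ⟨σ, hσ, h3⟩ := ((mem_clM _).1 f.2) (s b)
    have e1 := hΦ (fn f.1) ((mem_clM _).1 f.2) b ⟨σ, hσ⟩ h3
    have e2 := hΦ (fn f'.1) ((mem_clM _).1 f'.2) b ⟨σ, hσ⟩ fun x hx =>
      (h3 x hx).trans (hf' x hx).symm
    rw [he, he]
    exact e2.trans e1.symm
  · refine (continuous_pwOn _ _ _).2 fun f b => ⟨s' b, fun f' hf' => ?_⟩
    obtain ⟨σ, hσ, h3⟩ := ((mem_clM _).1 f.2) (s' b)
    have e1 := hΨ (fn f.1) ((mem_clM _).1 f.2) b ⟨σ, hσ⟩ h3
    have e2 := hΨ (fn f'.1) ((mem_clM _).1 f'.2) b ⟨σ, hσ⟩ fun x hx =>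
      (h3 x hx).trans (hf' x hx).symm
    rw [he', he']
    exact e2.trans e1.symm

end

end Pool.Agent.X193.REC
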